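import Pool.Agent.Helper75.PS.D

/-!
# Good local parametrisations of closed Riemannian surfaces
-/

open MeasureTheory Set Manifold Bundle Filter Topology
open scoped ContDiff ENNReal

namespace Pool.Agent.Helper75.PS
open Pool.Agent.Helper41.PS

theorem exists_param {M : Type*} [TopologicalSpace M] [T2Space M] [ChartedSpace E2 M]
    [IsManifold (𝓡 2) ∞ M] [RiemannianBundle (fun x : M => TangentSpace (𝓡 2) x)]
    [IsContMDiffRiemannianBundle (𝓡 2) ∞ E2 (fun x : M => TangentSpace (𝓡 2) x)]
    [MeasurableSpace M] [BorelSpace M] (vol : Measure M) (hvol : IsRiemannianVolume vol) (x0 : M) :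
    Nonempty (Param vol x0) := by
  obtain ⟨L, hL⟩ := exists_L x0
  set ψ := psi x0 L with hψ
  have h1 : ContMDiffOn (𝓡 2) (𝓡 2) ∞ ψ ψ.source := contMDiffOn_psi x0 L
  have h2 : ContMDiffOn (𝓡 2) (𝓡 2) ∞ ψ.symm ψ.target := contMDiffOn_psi_symm x0 L
  obtain ⟨δ, hδ, hball⟩ := Metric.isOpen_iff.1 ψ.open_source 0 (zero_mem_psi_source x0 L)
  refine ⟨{ δ := δ
            P := ψ
            a := fun y => √(gmat (T ψ y)).det • (Matrix.toEuclideanCLM (𝕜 := ℝ) (gmat (T ψ y))⁻¹)
            σ := fun y => √(gmat (T ψ y)).det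
            δ_pos := hδ
            P_zero := psi_zero x0 L
            cont_P := ψ.continuousOn.mono hball
            inj_P := ψ.injOn.mono hball
            open_P := fun U hU hUo => ψ.isOpen_image_of_subset_source hUo (hU.trans hball)
            a_cont := ?_
            a_zero := ?_
            σ_smooth := (sigma_smooth ψ h1 h2).mono hball
            σ_pos := ?_
            smooth_comp := ?_
            grad_eq := ?_
            vol_eq := fun f hf => vol_lintegral vol hvol x0 L hball Metric.isOpen_ball f hf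
            extend := fun v hv hvc hvs => extend_zero ψ h2 hball Metric.isOpen_ball v hv hvc hvs }⟩
  · have h3 : ContinuousOn (fun y => √(gmat (T ψ y)).det) ψ.source :=
      (sigma_smooth ψ h1 h2).continuousOn
    have h4 : ContinuousOn (fun y => (Matrix.toEuclideanCLM (𝕜 := ℝ) (gmat (T ψ y))⁻¹ :
        E2 →L[ℝ] E2)) ψ.source := clm_cont.comp_continuousOn (inv_cont ψ h1 h2)
    exact (h3.smul h4).mono hball
  · change √(gmat (T ψ 0)).det • (Matrix.toEuclideanCLM (𝕜 := ℝ) (gmat (T ψ 0))⁻¹) = _
    rw [hL]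
    simp
    rfl
  · intro y hy
    exact Real.sqrt_pos.2 (det_gmat_pos _ (T_bijective ψ h1 h2 (hball hy)).1)
  · intro u hu
    have h5 : ContMDiffOn (𝓡 2) 𝓘(ℝ, ℝ) ∞ (u ∘ ψ) ψ.source :=
      hu.comp_contMDiffOn h1
    exact (h5.contDiffOn).mono hball
  · intro u v hu hv y hy
    have hy' := hball hy
    rw [grad_comp ψ h1 u hu hy', grad_comp ψ h1 v hv hy', ContinuousLinearMap.smul_apply,
      real_inner_smul_left, inner_inv _ (T_bijective ψ h1 h2 hy'), mul_comm]

end Pool.Agent.Helper75.PS
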