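import Pool.Agent.Helper75.PS.Main

/-!
# Existence and uniqueness of the Riemannian volume
-/

open MeasureTheory Set Manifold Bundle Filter Topology
open scoped ContDiff ENNReal

namespace Pool.Agent.Helper75.PS
open Pool.Agent.Helper41.PS

section Vol

set_option linter.unusedSectionVars false

variable {M : Type*} [TopologicalSpace M] [ChartedSpace E2 M] [IsManifold (𝓡 2) ∞ M]
variable [RiemannianBundle (fun x : M => TangentSpace (𝓡 2) x)]

/-- Gram matrix with the base point as an explicit argument. -/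
noncomputable def gF (p : M) (A : E2 →L[ℝ] E2) : Matrix (Fin 2) (Fin 2) ℝ :=
  gmat (V := TangentSpace (𝓡 2) p) A

theorem gmat_congr {f g : E2 → M} {y : E2} (h : f =ᶠ[𝓝 y] g) :
    gF (f y) (mfderiv (𝓡 2) (𝓡 2) f y) = gF (g y) (mfderiv (𝓡 2) (𝓡 2) g y) :=
  congrArg₂ gF h.self_of_nhds h.mfderiv_eq

/-- The density in the chart at `x`. -/
noncomputable def rho (x : M) (y : E2) : ℝ≥0∞ := ENNReal.ofReal (√(gram x y).det)

/-- The transition map between two charts. -/
noncomputable def tau (x x' : M) (y : E2) : E2 := chartAt E2 x' ((chartAt E2 x).symm y)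

theorem tau_hasFDerivAt (x x' : M) {y : E2} (hy : y ∈ (chartAt E2 x).target)
    (hy' : (chartAt E2 x).symm y ∈ (chartAt E2 x').source) :
    HasFDerivAt (tau x x') (fderiv ℝ (tau x x') y) y := by
  have h1 : MDifferentiableAt (𝓡 2) (𝓡 2) (chartAt E2 x).symm y :=
    mdifferentiableAt_atlas_symm (chart_mem_atlas _ _) hy
  have h2 : MDifferentiableAt (𝓡 2) (𝓡 2) (chartAt E2 x') ((chartAt E2 x).symm y) :=
    mdifferentiableAt_atlas (chart_mem_atlas _ _) hy'
  have h3 : MDifferentiableAt (𝓡 2) (𝓡 2) (tau x x') y := h2.comp y h1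
  exact (mdifferentiableAt_iff_differentiableAt.1 h3).hasFDerivAt

theorem rho_change (x x' : M) {y : E2} (hy : y ∈ (chartAt E2 x).target)
    (hy' : (chartAt E2 x).symm y ∈ (chartAt E2 x').source) :
    rho x y = ENNReal.ofReal |(fderiv ℝ (tau x x') y).det| * rho x' (tau x x' y) := by
  have htau : tau x x' y ∈ (chartAt E2 x').target := (chartAt E2 x').map_source hy'
  have h1 : MDifferentiableAt (𝓡 2) (𝓡 2) (chartAt E2 x').symm (tau x x' y) :=
    mdifferentiableAt_atlas_symm (chart_mem_atlas _ _) htau
  have h2 : HasMFDerivAt (𝓡 2) (𝓡 2) (tau x x') y (fderiv ℝ (tau x x') y) :=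
    (tau_hasFDerivAt x x' hy hy').hasMFDerivAt
  have h3 := (h1.hasMFDerivAt.comp y h2)
  have hopen : IsOpen ((chartAt E2 x).target ∩ (chartAt E2 x).symm ⁻¹' (chartAt E2 x').source) :=
    (chartAt E2 x).isOpen_inter_preimage_symm (chartAt E2 x').open_source
  have h4 : (chartAt E2 x).symm =ᶠ[𝓝 y] ((chartAt E2 x').symm ∘ (tau x x')) := by
    filter_upwards [hopen.mem_nhds ⟨hy, hy'⟩] with z hz
    simp only [Function.comp, tau]
    rw [(chartAt E2 x').left_inv hz.2]
  have h5 : (chartAt E2 x).symm y = (chartAt E2 x').symm (tau x x' y) := h4.self_of_nhds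
  have h6 : gram x y = gF (((chartAt E2 x').symm ∘ (tau x x')) y)
      (mfderiv (𝓡 2) (𝓡 2) ((chartAt E2 x').symm ∘ (tau x x')) y) := gmat_congr h4
  have h7 : gF (((chartAt E2 x').symm ∘ (tau x x')) y)
      (mfderiv (𝓡 2) (𝓡 2) ((chartAt E2 x').symm ∘ (tau x x')) y) =
      gF ((chartAt E2 x').symm (tau x x' y))
        ((mfderiv (𝓡 2) (𝓡 2) (chartAt E2 x').symm (tau x x' y) : E2 →L[ℝ] E2) ∘L
          (fderiv ℝ (tau x x') y)) := congrArg (gF _) h3.mfderiv
  have h8 : √(gram x y).det = |(fderiv ℝ (tau x x') y).det| * √(gram x' (tau x x' y)).det := by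
    rw [h6, h7]
    exact sqrt_det_gmat_comp (V := TangentSpace (𝓡 2) ((chartAt E2 x').symm (tau x x' y))) _ _
  rw [rho, h8, ENNReal.ofReal_mul (abs_nonneg _)]
  rfl

variable [MeasurableSpace M] [BorelSpace M]

theorem chart_image (x : M) {s : Set M} (hs : s ⊆ (chartAt E2 x).source) :
    (chartAt E2 x) '' s = (chartAt E2 x).symm ⁻¹' s ∩ (chartAt E2 x).target := by
  rw [inter_comm]
  exact (chartAt E2 x).image_eq_target_inter_inv_preimage hs

theorem meas_chart_image (x : M) {s : Set M} (hs : s ⊆ (chartAt E2 x).source)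
    (hm : MeasurableSet s) : MeasurableSet ((chartAt E2 x) '' s) := by
  rw [chart_image x hs]
  exact meas_preimage (chartAt E2 x).continuousOn_symm (chartAt E2 x).open_target.measurableSet hm

theorem local_change (x x' : M) {s : Set M} (hm : MeasurableSet s)
    (hs : s ⊆ (chartAt E2 x).source) (hs' : s ⊆ (chartAt E2 x').source) :
    ∫⁻ y in (chartAt E2 x) '' s, rho x y = ∫⁻ y in (chartAt E2 x') '' s, rho x' y := by
  have himg : (chartAt E2 x') '' s = tau x x' '' ((chartAt E2 x) '' s) := by
    rw [image_image]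
    refine image_congr (fun z hz => ?_)
    simp only [tau]
    rw [(chartAt E2 x).left_inv (hs hz)]
  have hmem : ∀ y ∈ (chartAt E2 x) '' s, y ∈ (chartAt E2 x).target ∧
      (chartAt E2 x).symm y ∈ s := by
    rintro _ ⟨z, hz, rfl⟩
    refine ⟨(chartAt E2 x).map_source (hs hz), ?_⟩
    rwa [(chartAt E2 x).left_inv (hs hz)]
  have hmeas := meas_chart_image x hs hm
  rw [himg, lintegral_image_eq_lintegral_abs_det_fderiv_mul volume hmeas
    (f' := fun y => fderiv ℝ (tau x x') y)]
  · refine setLIntegral_congr_fun hmeas ?_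
    intro y hy
    exact rho_change x x' (hmem y hy).1 (hs' (hmem y hy).2)
  · intro y hy
    exact (tau_hasFDerivAt x x' (hmem y hy).1 (hs' (hmem y hy).2)).hasFDerivWithinAt
  · intro y hy z hz hyz
    have h1 := (chartAt E2 x').injOn (hs' (hmem y hy).2) (hs' (hmem z hz).2) hyz
    exact (chartAt E2 x).symm.injOn (hmem y hy).1 (hmem z hz).1 h1

/-- The local volume measure in the chart at `x`. -/
noncomputable def locVol (x : M) : Measure M :=
  ((volume.restrict (chartAt E2 x).target).withDensity (rho x)).map (chartAt E2 x).symm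

theorem locVol_apply (x : M) {s : Set M} (hm : MeasurableSet s)
    (hs : s ⊆ (chartAt E2 x).source) :
    locVol x s = ∫⁻ y in (chartAt E2 x) '' s, rho x y := by
  have hT := (chartAt E2 x).open_target.measurableSet
  have h1 : AEMeasurable (chartAt E2 x).symm (volume.restrict (chartAt E2 x).target) :=
    ((chartAt E2 x).continuousOn_symm).aemeasurable hT
  have h2 : AEMeasurable (chartAt E2 x).symm
      ((volume.restrict (chartAt E2 x).target).withDensity (rho x)) :=
    h1.mono_ac (withDensity_absolutelyContinuous _ _)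
  rw [locVol, Measure.map_apply_of_aemeasurable h2 hm, withDensity_apply',
    Measure.restrict_restrict' hT, ← chart_image x hs]

theorem exists_cover [CompactSpace M] [Nonempty M] :
    ∃ f : ℕ → M, ⋃ n, (chartAt E2 (f n)).source = univ := by
  obtain ⟨t, ht⟩ := CompactSpace.elim_nhds_subcover (fun x : M => (chartAt E2 x).source)
    (fun x => chart_source_mem_nhds E2 x)
  have hne : (t : Set M).Nonempty := by
    rw [Finset.coe_nonempty]
    by_contra h
    rw [Finset.not_nonempty_iff_eq_empty] at h
    subst h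
    simp only [Finset.notMem_empty, iUnion_of_empty, iUnion_empty] at ht
    exact (empty_ne_univ ht)
  obtain ⟨f, hf⟩ := (t.countable_toSet).exists_eq_range hne
  refine ⟨f, ?_⟩
  rw [eq_univ_iff_forall]
  intro x
  have hx : x ∈ ⋃ y ∈ t, (chartAt E2 y).source := by rw [ht]; exact mem_univ x
  simp only [mem_iUnion] at hx ⊢
  obtain ⟨y, hy, hxy⟩ := hx
  have hy' : y ∈ range f := by rw [← hf]; exact hy
  obtain ⟨n, rfl⟩ := hy'
  exact ⟨n, hxy⟩

/-- On a compact surface the Riemannian volume exists. -/
theorem exists_volume [CompactSpace M] : ∃ vol : Measure M, IsRiemannianVolume vol := by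
  rcases isEmpty_or_nonempty M with hM | hM
  · exact ⟨0, fun x0 => (hM.false x0).elim⟩
  obtain ⟨f, hf⟩ := exists_cover (M := M)
  set A : ℕ → Set M := disjointed (fun n => (chartAt E2 (f n)).source) with hA
  have hAm : ∀ n, MeasurableSet (A n) :=
    MeasurableSet.disjointed (fun n => (chartAt E2 (f n)).open_source.measurableSet)
  have hAd : Pairwise (Function.onFun Disjoint A) := disjoint_disjointed _
  have hAU : ⋃ n, A n = univ := by rw [hA, iUnion_disjointed, hf]
  have hAs : ∀ n, A n ⊆ (chartAt E2 (f n)).source := fun n => disjointed_subset _ n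
  refine ⟨Measure.sum (fun n => (locVol (f n)).restrict (A n)), ?_⟩
  intro x s hm hs
  rw [Measure.sum_apply _ hm]
  have h1 : ∀ n, (locVol (f n)).restrict (A n) s = locVol x (s ∩ A n) := by
    intro n
    have hm' := hm.inter (hAm n)
    rw [Measure.restrict_apply hm, locVol_apply (f n) hm' (inter_subset_right.trans (hAs n)),
      locVol_apply x hm' (inter_subset_left.trans hs)]
    exact local_change (f n) x hm' (inter_subset_right.trans (hAs n))
      (inter_subset_left.trans hs)
  simp_rw [h1]
  rw [← measure_iUnion, ← inter_iUnion, hAU, inter_univ, locVol_apply x hm hs]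
  · rfl
  · intro i j hij
    exact (hAd hij).mono inter_subset_right inter_subset_right
  · intro n
    exact hm.inter (hAm n)

/-- The Riemannian volume of a compact surface is unique. -/
theorem volume_unique [CompactSpace M] {vol vol' : Measure M} (h : IsRiemannianVolume vol)
    (h' : IsRiemannianVolume vol') : vol = vol' := by
  rcases isEmpty_or_nonempty M with hM | hM
  · ext s hs
    rw [Set.eq_empty_of_isEmpty s]
    simp
  obtain ⟨f, hf⟩ := exists_cover (M := M)
  set A : ℕ → Set M := disjointed (fun n => (chartAt E2 (f n)).source) with hA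
  have hAm : ∀ n, MeasurableSet (A n) :=
    MeasurableSet.disjointed (fun n => (chartAt E2 (f n)).open_source.measurableSet)
  have hAd : Pairwise (Function.onFun Disjoint A) := disjoint_disjointed _
  have hAU : ⋃ n, A n = univ := by rw [hA, iUnion_disjointed, hf]
  have hAs : ∀ n, A n ⊆ (chartAt E2 (f n)).source := fun n => disjointed_subset _ n
  ext s hs
  have hkey : ∀ (μ : Measure M), μ s = ∑' n, μ (s ∩ A n) := by
    intro μ
    rw [← measure_iUnion, ← inter_iUnion, hAU, inter_univ]
    · intro i j hij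
      exact (hAd hij).mono inter_subset_right inter_subset_right
    · intro n
      exact hs.inter (hAm n)
  rw [hkey vol, hkey vol']
  refine tsum_congr (fun n => ?_)
  rw [h (f n) _ (hs.inter (hAm n)) (inter_subset_right.trans (hAs n)),
    h' (f n) _ (hs.inter (hAm n)) (inter_subset_right.trans (hAs n))]

variable [IsContMDiffRiemannianBundle (𝓡 2) ∞ E2 (fun x : M => TangentSpace (𝓡 2) x)]

/-- The Riemannian volume is locally finite. -/
theorem isLocallyFinite [T2Space M] {vol : Measure M} (h : IsRiemannianVolume vol) :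
    IsLocallyFiniteMeasure vol := by
  refine ⟨fun x => ?_⟩
  obtain ⟨p⟩ := exists_param vol h x
  have hδ2 : (0 : ℝ) < p.δ / 2 := half_pos p.δ_pos
  have hsub : Metric.closedBall (0 : E2) (p.δ / 2) ⊆ Metric.ball 0 p.δ :=
    Metric.closedBall_subset_ball (half_lt_self p.δ_pos)
  have hsub' : Metric.ball (0 : E2) (p.δ / 2) ⊆ Metric.ball 0 p.δ :=
    Metric.ball_subset_closedBall.trans hsub
  have hopen : IsOpen (p.P '' Metric.ball 0 (p.δ / 2)) := p.open_P _ hsub' Metric.isOpen_ball
  refine ⟨p.P '' Metric.ball 0 (p.δ / 2), hopen.mem_nhds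
    ⟨0, Metric.mem_ball_self hδ2, p.P_zero⟩, ?_⟩
  obtain ⟨C, hC⟩ := (isCompact_closedBall (0 : E2) (p.δ / 2)).exists_bound_of_continuousOn
    (p.σ_smooth.continuousOn.mono hsub)
  have h1 := p.vol_eq ((p.P '' Metric.ball 0 (p.δ / 2)).indicator 1)
    (measurable_one.indicator hopen.measurableSet)
  rw [lintegral_indicator_one hopen.measurableSet, Measure.restrict_apply hopen.measurableSet,
    inter_eq_left.2 (image_mono hsub')] at h1
  rw [h1]
  have h2 : ∫⁻ y in Metric.ball (0 : E2) p.δ,
      (p.P '' Metric.ball 0 (p.δ / 2)).indicator 1 (p.P y) * ENNReal.ofReal (p.σ y) ≤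
      ∫⁻ y in Metric.ball (0 : E2) p.δ,
        (Metric.ball (0 : E2) (p.δ / 2)).indicator (fun _ => ENNReal.ofReal C) y := by
    refine lintegral_mono_ae ?_
    filter_upwards [ae_restrict_mem measurableSet_ball] with y hy
    by_cases hy2 : y ∈ Metric.ball (0 : E2) (p.δ / 2)
    · rw [indicator_of_mem hy2, indicator_of_mem (mem_image_of_mem _ hy2)]
      simp only [Pi.one_apply, one_mul]
      exact ENNReal.ofReal_le_ofReal ((le_abs_self _).trans (hC y (Metric.ball_subset_closedBall hy2)))
    · have hnot : p.P y ∉ p.P '' Metric.ball 0 (p.δ / 2) := by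
        rintro ⟨z, hz, hzy⟩
        exact hy2 ((p.inj_P (hsub' hz) hy hzy) ▸ hz)
      rw [indicator_of_notMem hnot]
      simp
  refine lt_of_le_of_lt h2 ?_
  rw [lintegral_indicator_const measurableSet_ball]
  refine ENNReal.mul_lt_top ENNReal.ofReal_lt_top ?_
  refine lt_of_le_of_lt (Measure.restrict_le_self _) measure_ball_lt_top

/-- The Riemannian volume of a compact surface is finite. -/
theorem isFinite [T2Space M] [CompactSpace M] {vol : Measure M} (h : IsRiemannianVolume vol) :
    IsFiniteMeasure vol := by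
  have := isLocallyFinite h
  exact CompactSpace.isFiniteMeasure

/-- The Riemannian volume is positive on nonempty open sets. -/
theorem isOpenPos [T2Space M] {vol : Measure M} (h : IsRiemannianVolume vol) :
    vol.IsOpenPosMeasure := by
  refine ⟨fun U hU hne h0 => ?_⟩
  obtain ⟨x, hx⟩ := hne
  obtain ⟨p⟩ := exists_param vol h x
  have h1 := p.vol_eq (U.indicator 1) (measurable_one.indicator hU.measurableSet)
  rw [lintegral_indicator_one hU.measurableSet, Measure.restrict_apply hU.measurableSet,
    measure_mono_null inter_subset_left h0] at h1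
  have hV : IsOpen (Metric.ball (0 : E2) p.δ ∩ p.P ⁻¹' U) :=
    p.cont_P.isOpen_inter_preimage Metric.isOpen_ball hU
  have hVne : (Metric.ball (0 : E2) p.δ ∩ p.P ⁻¹' U).Nonempty :=
    ⟨0, Metric.mem_ball_self p.δ_pos, by rw [mem_preimage, p.P_zero]; exact hx⟩
  have hpos : 0 < volume (Metric.ball (0 : E2) p.δ ∩ p.P ⁻¹' U) := hV.measure_pos volume hVne
  have hσm : AEMeasurable (fun y => ENNReal.ofReal (p.σ y))
      (volume.restrict (Metric.ball (0 : E2) p.δ ∩ p.P ⁻¹' U)) :=
    ((p.σ_smooth.continuousOn.mono inter_subset_left).aemeasurable hV.measurableSet).ennreal_ofReal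
  have h2 : ∫⁻ y in Metric.ball (0 : E2) p.δ ∩ p.P ⁻¹' U, ENNReal.ofReal (p.σ y) ≤
      ∫⁻ y in Metric.ball (0 : E2) p.δ, U.indicator 1 (p.P y) * ENNReal.ofReal (p.σ y) := by
    refine le_trans (le_of_eq ?_) (lintegral_mono_set (inter_subset_left (t := p.P ⁻¹' U)))
    refine setLIntegral_congr_fun hV.measurableSet ?_
    intro y hy
    simp only
    rw [indicator_of_mem (show p.P y ∈ U from hy.2)]
    simp
  rw [← h1, nonpos_iff_eq_zero, lintegral_eq_zero_iff' hσm] at h2
  have h3 : volume (Metric.ball (0 : E2) p.δ ∩ p.P ⁻¹' U) = 0 := by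
    rw [← Measure.restrict_eq_zero, ← ae_eq_bot, ← Filter.eventually_false_iff_eq_bot]
    filter_upwards [h2, ae_restrict_mem hV.measurableSet] with y hy hyV
    have := p.σ_pos y hyV.1
    simp only [Pi.zero_apply, ENNReal.ofReal_eq_zero] at hy
    linarith
  exact hpos.ne' h3

end Vol

end Pool.Agent.Helper75.PS
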