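import Pool.Agent.Helper75.PS.B

open MeasureTheory Set Manifold Bundle Filter Topology
open scoped ContDiff ENNReal

namespace Pool.Agent.Helper75.PS
open Pool.Agent.Helper41.PS

section A

set_option linter.unusedSectionVars false

variable {M : Type*} [TopologicalSpace M] [ChartedSpace E2 M] [IsManifold (𝓡 2) ∞ M]

/-- Affine map. -/
noncomputable def aff (c : E2) (L : E2 ≃L[ℝ] E2) : E2 ≃ₜ E2 :=
  L.toHomeomorph.trans (Homeomorph.addLeft c)

theorem aff_apply (c : E2) (L : E2 ≃L[ℝ] E2) (y : E2) : aff c L y = c + L y := rfl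

/-- The affinely reparametrised inverse chart. -/
noncomputable def psi (x0 : M) (L : E2 ≃L[ℝ] E2) : OpenPartialHomeomorph E2 M :=
  (aff (chartAt E2 x0 x0) L).toOpenPartialHomeomorph.trans (chartAt E2 x0).symm

theorem psi_apply (x0 : M) (L : E2 ≃L[ℝ] E2) (y : E2) :
    psi x0 L y = (chartAt E2 x0).symm (chartAt E2 x0 x0 + L y) := rfl

theorem psi_zero (x0 : M) (L : E2 ≃L[ℝ] E2) : psi x0 L 0 = x0 := by
  simp [psi_apply]

theorem mem_psi_source (x0 : M) (L : E2 ≃L[ℝ] E2) (y : E2) :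
    y ∈ (psi x0 L).source ↔ chartAt E2 x0 x0 + L y ∈ (chartAt E2 x0).target := by
  simp [psi, aff_apply]

theorem zero_mem_psi_source (x0 : M) (L : E2 ≃L[ℝ] E2) : (0 : E2) ∈ (psi x0 L).source := by
  rw [mem_psi_source]; simp

theorem psi_symm_apply (x0 : M) (L : E2 ≃L[ℝ] E2) (x : M) :
    (psi x0 L).symm x = L.symm (chartAt E2 x0 x - chartAt E2 x0 x0) := by
  have h : (psi x0 L).symm x = L.symm (-(chartAt E2 x0 x0) + chartAt E2 x0 x) := rfl
  rw [h, sub_eq_neg_add]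

theorem psi_target (x0 : M) (L : E2 ≃L[ℝ] E2) : (psi x0 L).target = (chartAt E2 x0).source := by
  simp [psi]

theorem contMDiffOn_psi (x0 : M) (L : E2 ≃L[ℝ] E2) :
    ContMDiffOn (𝓡 2) (𝓡 2) ∞ (psi x0 L) (psi x0 L).source := by
  have h1 : ContMDiffOn (𝓡 2) (𝓡 2) ∞ (chartAt E2 x0).symm (chartAt E2 x0).target :=
    contMDiffOn_chart_symm
  have h2 : ContMDiff (𝓡 2) (𝓡 2) ∞ (fun y : E2 => chartAt E2 x0 x0 + L y) :=
    (contDiff_const.add L.contDiff).contMDiff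
  exact h1.comp h2.contMDiffOn (fun y hy => (mem_psi_source x0 L y).1 hy)

theorem contMDiffOn_psi_symm (x0 : M) (L : E2 ≃L[ℝ] E2) :
    ContMDiffOn (𝓡 2) (𝓡 2) ∞ (psi x0 L).symm (psi x0 L).target := by
  have h1 : ContMDiffOn (𝓡 2) (𝓡 2) ∞ (chartAt E2 x0) (chartAt E2 x0).source :=
    contMDiffOn_chart
  have h2 : ContMDiff (𝓡 2) (𝓡 2) ∞ (fun y : E2 => L.symm (y - chartAt E2 x0 x0)) :=
    (L.symm.contDiff.comp (contDiff_id.sub contDiff_const)).contMDiff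
  have h3 := h2.contMDiffOn (s := univ).comp h1 (fun y hy => mem_univ _)
  rw [psi_target]
  refine h3.congr ?_
  intro x hx
  rw [psi_symm_apply]
  rfl

/-- The derivative of the parametrisation. -/
noncomputable def T (ψ : OpenPartialHomeomorph E2 M) (y : E2) :
    E2 →L[ℝ] TangentSpace (𝓡 2) (ψ y) := mfderiv (𝓡 2) (𝓡 2) ψ y

variable [RiemannianBundle (fun x : M => TangentSpace (𝓡 2) x)]


variable [IsContMDiffRiemannianBundle (𝓡 2) ∞ E2 (fun x : M => TangentSpace (𝓡 2) x)]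

theorem gmat_smooth (ψ : OpenPartialHomeomorph E2 M)
    (hψ : ContMDiffOn (𝓡 2) (𝓡 2) ∞ ψ ψ.source) (i j : Fin 2) :
    ContDiffOn ℝ ∞ (fun y => gmat (T ψ y) i j) ψ.source := by
  have hT : ∀ i : Fin 2, ContMDiffOn (𝓡 2) (𝓡 2).tangent ∞
      (fun y : E2 => (⟨ψ y, T ψ y (ev i)⟩ : TangentBundle (𝓡 2) M))
      ψ.source := by
    intro i
    have h1 := hψ.contMDiffOn_tangentMapWithin (m := ∞) (le_refl _) ψ.open_source.uniqueMDiffOn
    have h2 : ContMDiff (𝓡 2) (𝓡 2).tangent ∞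
        (fun y : E2 => (⟨y, ev i⟩ : TangentBundle (𝓡 2) E2)) := by
      have := (contMDiff_vectorSpace_iff_contDiff (n := ∞) (𝕜 := ℝ) (E := E2)
        (V := fun _ => (ev i : E2))).2 contDiff_const
      exact this
    have h3 := h1.comp (h2.contMDiffOn (s := ψ.source)) (fun y hy => hy)
    refine h3.congr ?_
    intro y hy
    simp only [Function.comp, tangentMapWithin]
    rw [mfderivWithin_of_isOpen ψ.open_source hy]
    rfl
  have := ContMDiffOn.inner_bundle (hT i) (hT j)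
  exact this.contDiffOn

theorem T_bijective (ψ : OpenPartialHomeomorph E2 M)
    (hψ : ContMDiffOn (𝓡 2) (𝓡 2) ∞ ψ ψ.source)
    (hψ' : ContMDiffOn (𝓡 2) (𝓡 2) ∞ ψ.symm ψ.target) {y : E2} (hy : y ∈ ψ.source) :
    Function.Bijective (T ψ y) := by
  have h : ψ.MDifferentiable (𝓡 2) (𝓡 2) :=
    ⟨hψ.mdifferentiableOn (by simp), hψ'.mdifferentiableOn (by simp)⟩
  exact h.mfderiv_bijective hy

theorem det_smooth (ψ : OpenPartialHomeomorph E2 M)
    (hψ : ContMDiffOn (𝓡 2) (𝓡 2) ∞ ψ ψ.source) :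
    ContDiffOn ℝ ∞ (fun y => (gmat (T ψ y)).det) ψ.source := by
  simp only [Matrix.det_fin_two]
  exact ((gmat_smooth ψ hψ 0 0).mul (gmat_smooth ψ hψ 1 1)).sub
    ((gmat_smooth ψ hψ 0 1).mul (gmat_smooth ψ hψ 1 0))

theorem sigma_smooth (ψ : OpenPartialHomeomorph E2 M)
    (hψ : ContMDiffOn (𝓡 2) (𝓡 2) ∞ ψ ψ.source)
    (hψ' : ContMDiffOn (𝓡 2) (𝓡 2) ∞ ψ.symm ψ.target) :
    ContDiffOn ℝ ∞ (fun y => √(gmat (T ψ y)).det) ψ.source :=
  (det_smooth ψ hψ).sqrt (fun y hy => (det_gmat_pos _ (T_bijective ψ hψ hψ' hy).1).ne')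

theorem gmat_cont (ψ : OpenPartialHomeomorph E2 M)
    (hψ : ContMDiffOn (𝓡 2) (𝓡 2) ∞ ψ ψ.source) :
    ContinuousOn (fun y => gmat (T ψ y)) ψ.source := by
  refine continuousOn_pi.2 (fun i => continuousOn_pi.2 (fun j => ?_))
  exact (gmat_smooth ψ hψ i j).continuousOn

theorem inv_cont (ψ : OpenPartialHomeomorph E2 M)
    (hψ : ContMDiffOn (𝓡 2) (𝓡 2) ∞ ψ ψ.source)
    (hψ' : ContMDiffOn (𝓡 2) (𝓡 2) ∞ ψ.symm ψ.target) :
    ContinuousOn (fun y => (gmat (T ψ y))⁻¹) ψ.source := by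
  have h : ∀ y ∈ ψ.source, (gmat (T ψ y))⁻¹ =
      ((gmat (T ψ y)).det)⁻¹ • (gmat (T ψ y)).adjugate := by
    intro y hy
    rw [Matrix.inv_def, Ring.inverse_eq_inv']
  refine ContinuousOn.congr ?_ h
  have h1 : ContinuousOn (fun y => ((gmat (T ψ y)).det)⁻¹) ψ.source :=
    (det_smooth ψ hψ).continuousOn.inv₀
      (fun _ hy => (det_gmat_pos _ (T_bijective ψ hψ hψ' hy).1).ne')
  have h2 : ContinuousOn (fun y => (gmat (T ψ y)).adjugate) ψ.source :=
    (continuous_id.matrix_adjugate).comp_continuousOn (gmat_cont ψ hψ)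
  exact h1.smul h2

theorem clm_cont : Continuous (fun A : Matrix (Fin 2) (Fin 2) ℝ =>
    (Matrix.toEuclideanCLM (𝕜 := ℝ) A : E2 →L[ℝ] E2)) := by
  let f : Matrix (Fin 2) (Fin 2) ℝ →ₗ[ℝ] (E2 →L[ℝ] E2) :=
    { toFun := fun A => Matrix.toEuclideanCLM (𝕜 := ℝ) A
      map_add' := fun A B => map_add _ A B
      map_smul' := fun c A => map_smul _ c A }
  exact f.continuous_of_finiteDimensional

end A

end Pool.Agent.Helper75.PS
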