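import Pool.Agent.Helper41.PS.Defs

open MeasureTheory Set Manifold Bundle Filter Topology
open scoped ContDiff ENNReal

namespace Pool.Agent.Helper75.PS
open Pool.Agent.Helper41.PS

/-- Basis vector. -/
noncomputable abbrev ev (i : Fin 2) : E2 := EuclideanSpace.single i (1 : ℝ)

section LA

set_option linter.unusedSectionVars false

variable {V : Type*} [NormedAddCommGroup V] [InnerProductSpace ℝ V] [CompleteSpace V]

/-- Gram matrix of a linear map. -/
noncomputable def gmat (T : E2 →L[ℝ] V) : Matrix (Fin 2) (Fin 2) ℝ :=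
  Matrix.of fun i j => inner ℝ (T (ev i)) (T (ev j))

theorem eq_sum_ev (v : E2) : v = ∑ i, v i • ev i := by
  ext j
  fin_cases j <;> simp [ev]

theorem map_eq_sum {W : Type*} [AddCommGroup W] [Module ℝ W] [TopologicalSpace W]
    (T : E2 →L[ℝ] W) (v : E2) : T v = ∑ i, v i • T (ev i) := by
  conv_lhs => rw [eq_sum_ev v]
  simp

theorem gmat_eq_gram (T : E2 →L[ℝ] V) : gmat T = Matrix.gram ℝ (fun i => T (ev i)) := rfl

theorem adjoint_comp_eq (T : E2 →L[ℝ] V) (v : E2) :
    Matrix.toEuclideanCLM (𝕜 := ℝ) (gmat T) v = (ContinuousLinearMap.adjoint T) (T v) := by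
  refine ext_inner_left ℝ (fun w => ?_)
  rw [Matrix.inner_toEuclideanCLM, ContinuousLinearMap.adjoint_inner_right,
    map_eq_sum T w, map_eq_sum T v]
  simp only [sum_inner, inner_sum, real_inner_smul_left, real_inner_smul_right, dotProduct,
    Matrix.mulVec, gmat, Matrix.of_apply, Finset.mul_sum]
  rw [Finset.sum_comm]
  refine Finset.sum_congr rfl (fun i _ => ?_)
  refine Finset.sum_congr rfl (fun j _ => ?_)
  ring

theorem linearIndependent_ev : LinearIndependent ℝ ev := by
  have := (EuclideanSpace.basisFun (Fin 2) ℝ).toBasis.linearIndependent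
  have h2 : ⇑(EuclideanSpace.basisFun (Fin 2) ℝ).toBasis = ev := by
    ext i
    simp [ev]
  rw [h2] at this
  exact this

theorem det_gmat_pos (T : E2 →L[ℝ] V) (hT : Function.Injective T) : 0 < (gmat T).det := by
  have h : (gmat T).PosDef := by
    rw [gmat_eq_gram]
    apply Matrix.posDef_gram_of_linearIndependent
    exact linearIndependent_ev.map' T.toLinearMap (LinearMap.ker_eq_bot.2 hT)
  exact h.det_pos

theorem inv_apply (T : E2 →L[ℝ] V) (hT : Function.Injective T) (w : E2) :
    Matrix.toEuclideanCLM (𝕜 := ℝ) (gmat T)⁻¹ ((ContinuousLinearMap.adjoint T) (T w)) = w := by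
  have h : (Matrix.toEuclideanCLM (𝕜 := ℝ) (gmat T)⁻¹ *
      Matrix.toEuclideanCLM (𝕜 := ℝ) (gmat T)) w = w := by
    rw [← map_mul, Matrix.nonsing_inv_mul _ (det_gmat_pos T hT).ne'.isUnit]
    simp
  rw [← adjoint_comp_eq]
  exact h

theorem inner_inv (T : E2 →L[ℝ] V) (hT : Function.Bijective T) (U W : V) :
    inner ℝ (Matrix.toEuclideanCLM (𝕜 := ℝ) (gmat T)⁻¹ ((ContinuousLinearMap.adjoint T) U))
      ((ContinuousLinearMap.adjoint T) W) = inner ℝ U W := by
  obtain ⟨u, rfl⟩ := hT.2 U
  rw [inv_apply T hT.1, ContinuousLinearMap.adjoint_inner_right]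

/-- Matrix of a linear map of the plane. -/
noncomputable def lmat (L : E2 →L[ℝ] E2) : Matrix (Fin 2) (Fin 2) ℝ :=
  Matrix.of fun i j => L (ev j) i

theorem det_lmat (L : E2 →L[ℝ] E2) : (lmat L).det = L.det := by
  have h : lmat L = LinearMap.toMatrix (EuclideanSpace.basisFun (Fin 2) ℝ).toBasis
      (EuclideanSpace.basisFun (Fin 2) ℝ).toBasis L.toLinearMap := by
    ext i j
    rw [LinearMap.toMatrix_apply]
    simp [lmat, ev]
  rw [h, LinearMap.det_toMatrix]

theorem gmat_comp (T : E2 →L[ℝ] V) (L : E2 →L[ℝ] E2) :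
    gmat (T ∘L L) = (lmat L).transpose * gmat T * lmat L := by
  ext i j
  simp only [gmat, Matrix.of_apply, ContinuousLinearMap.comp_apply, Matrix.mul_apply,
    Matrix.transpose_apply, lmat]
  rw [map_eq_sum T (L (ev i)), map_eq_sum T (L (ev j))]
  simp only [sum_inner, inner_sum, real_inner_smul_left, real_inner_smul_right, Finset.sum_mul]
  refine Finset.sum_congr rfl (fun k _ => Finset.sum_congr rfl (fun l _ => ?_))
  ring

theorem sqrt_det_gmat_comp (T : E2 →L[ℝ] V) (L : E2 →L[ℝ] E2) :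
    √(gmat (T ∘L L)).det = |L.det| * √(gmat T).det := by
  rw [gmat_comp, Matrix.det_mul, Matrix.det_mul, Matrix.det_transpose, det_lmat]
  have : L.det * (gmat T).det * L.det = L.det ^ 2 * (gmat T).det := by ring
  rw [this, Real.sqrt_mul (sq_nonneg _), Real.sqrt_sq_eq_abs]

theorem gmat_isometry (T : E2 →L[ℝ] V) (hT : ∀ v w, inner ℝ (T v) (T w) = inner ℝ v w) :
    gmat T = 1 := by
  ext i j
  simp only [gmat, Matrix.of_apply, hT]
  simp [ev, Matrix.one_apply, EuclideanSpace.inner_single_left]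

end LA

end Pool.Agent.Helper75.PS
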