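import Pool.Agent.Helper75.PS.A

open MeasureTheory Set Manifold Bundle Filter Topology
open scoped ContDiff ENNReal

namespace Pool.Agent.Helper75.PS
open Pool.Agent.Helper41.PS

section C

set_option linter.unusedSectionVars false

variable {M : Type*} [TopologicalSpace M] [ChartedSpace E2 M] [IsManifold (𝓡 2) ∞ M]

/-- Chain rule for the parametrisation. -/
theorem T_psi (x0 : M) (L : E2 ≃L[ℝ] E2) {y : E2} (hy : y ∈ (psi x0 L).source) :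
    T (psi x0 L) y = (mfderiv (𝓡 2) (𝓡 2) (chartAt E2 x0).symm
      (chartAt E2 x0 x0 + L y) : E2 →L[ℝ] TangentSpace (𝓡 2) _) ∘L (L : E2 →L[ℝ] E2) := by
  have hy' := (mem_psi_source x0 L y).1 hy
  have h1 : MDifferentiableAt (𝓡 2) (𝓡 2) (chartAt E2 x0).symm (chartAt E2 x0 x0 + L y) :=
    mdifferentiableAt_atlas_symm (chart_mem_atlas _ _) hy'
  have h2 : HasMFDerivAt (𝓡 2) (𝓡 2) (fun y : E2 => chartAt E2 x0 x0 + L y) y
      (L : E2 →L[ℝ] E2) := by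
    apply HasFDerivAt.hasMFDerivAt
    exact (L.hasFDerivAt).const_add _
  exact (h1.hasMFDerivAt.comp y h2).mfderiv

variable [RiemannianBundle (fun x : M => TangentSpace (𝓡 2) x)]

theorem gram_eq (x0 : M) (y : E2) :
    gram x0 y = gmat (mfderiv (𝓡 2) (𝓡 2) (chartAt E2 x0).symm y :
      E2 →L[ℝ] TangentSpace (𝓡 2) _) := rfl

theorem sqrt_det_psi (x0 : M) (L : E2 ≃L[ℝ] E2) {y : E2} (hy : y ∈ (psi x0 L).source) :
    √(gmat (T (psi x0 L) y)).det = |(L : E2 →L[ℝ] E2).det| *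
      √(gram x0 (chartAt E2 x0 x0 + L y)).det := by
  rw [T_psi x0 L hy, gram_eq]
  exact sqrt_det_gmat_comp _ _

theorem grad_comp (ψ : OpenPartialHomeomorph E2 M)
    (hψ : ContMDiffOn (𝓡 2) (𝓡 2) ∞ ψ ψ.source) (u : M → ℝ)
    (hu : ContMDiff (𝓡 2) 𝓘(ℝ, ℝ) ∞ u) {y : E2} (hy : y ∈ ψ.source) :
    gradient (u ∘ ψ) y = (ContinuousLinearMap.adjoint (T ψ y)) (grad u (ψ y)) := by
  have h1 : MDifferentiableAt (𝓡 2) 𝓘(ℝ, ℝ) u (ψ y) := (hu _).mdifferentiableAt (by simp)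
  have h2 : MDifferentiableAt (𝓡 2) (𝓡 2) ψ y :=
    ((hψ y hy).mdifferentiableWithinAt (by simp)).mdifferentiableAt (ψ.open_source.mem_nhds hy)
  have h3 : mfderiv (𝓡 2) 𝓘(ℝ, ℝ) (u ∘ ψ) y =
      (mfderiv (𝓡 2) 𝓘(ℝ, ℝ) u (ψ y)).comp (mfderiv (𝓡 2) (𝓡 2) ψ y) :=
    mfderiv_comp y h1 h2
  refine ext_inner_right ℝ (fun w => ?_)
  rw [ContinuousLinearMap.adjoint_inner_left]
  have h4 : inner ℝ (gradient (u ∘ ψ) y) w = (fderiv ℝ (u ∘ ψ) y) w := by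
    simp [gradient]
  have h5 : inner ℝ (grad u (ψ y)) (T ψ y w) = (mfderiv (𝓡 2) 𝓘(ℝ, ℝ) u (ψ y)) (T ψ y w) :=
    InnerProductSpace.toDual_symm_apply (𝕜 := ℝ) (E := TangentSpace (𝓡 2) (ψ y))
  rw [h4, h5, ← mfderiv_eq_fderiv, h3]
  rfl

end C

end Pool.Agent.Helper75.PS
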