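import Pool.Agent.Helper75.PS.C

open MeasureTheory Set Manifold Bundle Filter Topology
open scoped ContDiff ENNReal

namespace Pool.Agent.Helper75.PS
open Pool.Agent.Helper41.PS

section D

set_option linter.unusedSectionVars false

variable {M : Type*} [TopologicalSpace M] [ChartedSpace E2 M] [IsManifold (𝓡 2) ∞ M]
variable [RiemannianBundle (fun x : M => TangentSpace (𝓡 2) x)]

theorem gmat_psi (x0 : M) (L : E2 ≃L[ℝ] E2) {y : E2} (hy : y ∈ (psi x0 L).source) :
    gmat (T (psi x0 L) y) = (lmat (L : E2 →L[ℝ] E2)).transpose *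
      gram x0 (chartAt E2 x0 x0 + L y) * lmat (L : E2 →L[ℝ] E2) := by
  rw [T_psi x0 L hy]
  exact gmat_comp _ _

theorem exists_L (x0 : M) : ∃ L : E2 ≃L[ℝ] E2, gmat (T (psi x0 L) 0) = 1 := by
  have hc : chartAt E2 x0 x0 ∈ (chartAt E2 x0).target := mem_chart_target E2 x0
  let D := (mdifferentiable_chart (I := 𝓡 2) x0).symm.mfderiv hc
  have h2 : Module.finrank ℝ (TangentSpace (𝓡 2) ((chartAt E2 x0).symm (chartAt E2 x0 x0))) = 2 := by
    have : Module.finrank ℝ E2 = 2 := finrank_euclideanSpace_fin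
    exact this
  let b := (stdOrthonormalBasis ℝ
    (TangentSpace (𝓡 2) ((chartAt E2 x0).symm (chartAt E2 x0 x0)))).reindex (finCongr h2)
  let L : E2 ≃L[ℝ] E2 := b.repr.symm.toContinuousLinearEquiv.trans D.symm
  refine ⟨L, ?_⟩
  rw [gmat_psi x0 L (zero_mem_psi_source x0 L), map_zero, add_zero]
  let D' : E2 →L[ℝ] TangentSpace (𝓡 2) ((chartAt E2 x0).symm (chartAt E2 x0 x0)) :=
    mfderiv (𝓡 2) (𝓡 2) (chartAt E2 x0).symm (chartAt E2 x0 x0)
  have key : (lmat (L : E2 →L[ℝ] E2)).transpose * gram x0 (chartAt E2 x0 x0) *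
      lmat (L : E2 →L[ℝ] E2) = gmat (D' ∘L (L : E2 →L[ℝ] E2)) :=
    (gmat_comp D' (L : E2 →L[ℝ] E2)).symm
  refine key.trans ?_
  apply gmat_isometry
  intro v w
  have h3 : ∀ v : E2, (D' ∘L (L : E2 →L[ℝ] E2)) v = b.repr.symm v := by
    intro v
    change D (D.symm (b.repr.symm v)) = b.repr.symm v
    exact D.apply_symm_apply _
  rw [h3, h3]
  exact b.repr.symm.inner_map_map v w

variable [T2Space M]

theorem extend_zero (ψ : OpenPartialHomeomorph E2 M)
    (hψ' : ContMDiffOn (𝓡 2) (𝓡 2) ∞ ψ.symm ψ.target) {S : Set E2} (hS : S ⊆ ψ.source)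
    (hSo : IsOpen S) (v : E2 → ℝ) (hv : ContDiff ℝ ∞ v) (hvc : HasCompactSupport v)
    (hvS : tsupport v ⊆ S) :
    ∃ V : M → ℝ, ContMDiff (𝓡 2) 𝓘(ℝ, ℝ) ∞ V ∧ (∀ y ∈ S, V (ψ y) = v y) ∧
      (∀ x, x ∉ ψ '' S → V x = 0) := by
  classical
  refine ⟨fun x => if x ∈ ψ '' S then v (ψ.symm x) else 0, ?_, ?_, ?_⟩
  · intro x
    by_cases hx : x ∈ ψ '' S
    · have hopen : IsOpen (ψ '' S) := ψ.isOpen_image_of_subset_source hSo hS
      have hxt : x ∈ ψ.target := by
        obtain ⟨y, hy, rfl⟩ := hx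
        exact ψ.map_source (hS hy)
      have h1 : ContMDiffAt (𝓡 2) (𝓡 2) ∞ ψ.symm x :=
        (hψ' x hxt).contMDiffAt (ψ.open_target.mem_nhds hxt)
      have h2 : ContMDiffAt (𝓡 2) 𝓘(ℝ, ℝ) ∞ (v ∘ ψ.symm) x :=
        (hv.contMDiff.contMDiffAt).comp x h1
      refine h2.congr_of_eventuallyEq ?_
      filter_upwards [hopen.mem_nhds hx] with z hz
      simp [hz]
    · have hK : IsCompact (ψ '' tsupport v) :=
        IsCompact.image_of_continuousOn hvc (ψ.continuousOn.mono (hvS.trans hS))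
      have hxK : x ∈ (ψ '' tsupport v)ᶜ := fun h => hx (image_mono hvS h)
      have h0 : ContMDiffAt (𝓡 2) 𝓘(ℝ, ℝ) ∞ (fun _ : M => (0 : ℝ)) x := contMDiffAt_const
      refine h0.congr_of_eventuallyEq ?_
      filter_upwards [hK.isClosed.isOpen_compl.mem_nhds hxK] with z hz
      by_cases hzS : z ∈ ψ '' S
      · obtain ⟨y, hy, rfl⟩ := hzS
        have : v y = 0 := by
          by_contra hne
          exact hz ⟨y, subset_tsupport v hne, rfl⟩
        rw [if_pos ⟨y, hy, rfl⟩, ψ.left_inv (hS hy), this]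
      · rw [if_neg hzS]
  · intro y hy
    simp only
    rw [if_pos ⟨y, hy, rfl⟩, ψ.left_inv (hS hy)]
  · intro x hx
    simp only
    rw [if_neg hx]

end D

section Vol

set_option linter.unusedSectionVars false

variable {M : Type*} [TopologicalSpace M] [ChartedSpace E2 M] [IsManifold (𝓡 2) ∞ M]
variable [RiemannianBundle (fun x : M => TangentSpace (𝓡 2) x)]
variable [MeasurableSpace M] [BorelSpace M]

theorem meas_preimage {P : E2 → M} {S : Set E2} (hP : ContinuousOn P S) (hS : MeasurableSet S)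
    {s : Set M} (hs : MeasurableSet s) : MeasurableSet (P ⁻¹' s ∩ S) := by
  have h1 : Measurable (S.domRestrict P) :=
    (continuousOn_iff_continuous_domRestrict.1 hP).measurable
  have h2 := MeasurableSet.subtype_image hS (h1 hs)
  convert h2 using 1
  ext y
  constructor
  · rintro ⟨h, hy⟩
    exact ⟨⟨y, hy⟩, h, rfl⟩
  · rintro ⟨⟨z, hz⟩, h, rfl⟩
    exact ⟨h, hz⟩

theorem vol_inter (vol : Measure M) (hvol : IsRiemannianVolume vol) (x0 : M) (L : E2 ≃L[ℝ] E2)
    {S : Set E2} (hS : S ⊆ (psi x0 L).source) (hSo : IsOpen S) (s : Set M)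
    (hs : MeasurableSet s) :
    vol (s ∩ (psi x0 L) '' S) = ∫⁻ y in (psi x0 L) ⁻¹' s ∩ S,
      ENNReal.ofReal (√(gmat (T (psi x0 L) y)).det) := by
  have hopen : IsOpen ((psi x0 L) '' S) := (psi x0 L).isOpen_image_of_subset_source hSo hS
  have hsub : s ∩ (psi x0 L) '' S ⊆ (chartAt E2 x0).source := by
    rintro x ⟨-, y, hy, rfl⟩
    rw [← psi_target x0 L]
    exact (psi x0 L).map_source (hS hy)
  rw [hvol x0 _ (hs.inter hopen.measurableSet) hsub]
  have himg : (chartAt E2 x0) '' (s ∩ (psi x0 L) '' S) =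
      (fun y => chartAt E2 x0 x0 + L y) '' ((psi x0 L) ⁻¹' s ∩ S) := by
    ext z
    constructor
    · rintro ⟨_, ⟨h1, y, hy, rfl⟩, rfl⟩
      refine ⟨y, ⟨h1, hy⟩, ?_⟩
      rw [psi_apply, (chartAt E2 x0).right_inv ((mem_psi_source x0 L y).1 (hS hy))]
    · rintro ⟨y, ⟨h1, hy⟩, rfl⟩
      refine ⟨psi x0 L y, ⟨h1, y, hy, rfl⟩, ?_⟩
      rw [psi_apply, (chartAt E2 x0).right_inv ((mem_psi_source x0 L y).1 (hS hy))]
  have hmeas : MeasurableSet ((psi x0 L) ⁻¹' s ∩ S) :=
    meas_preimage ((psi x0 L).continuousOn.mono hS) hSo.measurableSet hs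
  rw [himg, lintegral_image_eq_lintegral_abs_det_fderiv_mul volume hmeas
    (f' := fun _ => (L : E2 →L[ℝ] E2))
    (fun y _ => ((L.hasFDerivAt).const_add _).hasFDerivWithinAt)
    (fun y _ z _ h => L.injective (add_left_cancel h))]
  refine setLIntegral_congr_fun hmeas ?_
  intro y hy
  simp only
  rw [← ENNReal.ofReal_mul (abs_nonneg _), sqrt_det_psi x0 L (hS hy.2)]

theorem vol_lintegral [IsContMDiffRiemannianBundle (𝓡 2) ∞ E2
    (fun x : M => TangentSpace (𝓡 2) x)]
    (vol : Measure M) (hvol : IsRiemannianVolume vol) (x0 : M) (L : E2 ≃L[ℝ] E2)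
    {S : Set E2} (hS : S ⊆ (psi x0 L).source) (hSo : IsOpen S) (f : M → ℝ≥0∞)
    (hf : Measurable f) :
    ∫⁻ x in (psi x0 L) '' S, f x ∂vol = ∫⁻ y in S, f (psi x0 L y) *
      ENNReal.ofReal (√(gmat (T (psi x0 L) y)).det) := by
  set σ : E2 → ℝ≥0∞ := fun y => ENNReal.ofReal (√(gmat (T (psi x0 L) y)).det) with hσ
  have hopen : IsOpen ((psi x0 L) '' S) := (psi x0 L).isOpen_image_of_subset_source hSo hS
  have hσm : AEMeasurable σ (volume.restrict S) := by
    have h1 : ContinuousOn (fun y => √(gmat (T (psi x0 L) y)).det) S :=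
      ((sigma_smooth (psi x0 L) (contMDiffOn_psi x0 L) (contMDiffOn_psi_symm x0 L)).continuousOn).mono
        hS
    exact (h1.aemeasurable hSo.measurableSet).ennreal_ofReal
  have hPm : AEMeasurable (psi x0 L) (volume.restrict S) :=
    ((psi x0 L).continuousOn.mono hS).aemeasurable hSo.measurableSet
  set ν : Measure E2 := (volume.restrict S).withDensity σ with hν
  have hac : ν ≪ volume.restrict S := withDensity_absolutelyContinuous _ _
  have hPν : AEMeasurable (psi x0 L) ν := hPm.mono_ac hac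
  have heq : vol.restrict ((psi x0 L) '' S) = ν.map (psi x0 L) := by
    ext s hs
    rw [Measure.restrict_apply hs, Measure.map_apply_of_aemeasurable hPν hs, hν,
      withDensity_apply' , Measure.restrict_restrict' hSo.measurableSet]
    exact vol_inter vol hvol x0 L hS hSo s hs
  rw [heq, lintegral_map' hf.aemeasurable hPν, hν,
    lintegral_withDensity_eq_lintegral_mul₀ (g := fun y => f (psi x0 L y)) hσm
      (hf.comp_aemeasurable hPm)]
  refine lintegral_congr (fun y => ?_)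
  simp only [Pi.mul_apply]
  rw [mul_comm]

end Vol

end Pool.Agent.Helper75.PS
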